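import Pool.Agent.Lib.helper10.Walsh

namespace Pool.Agent.Results.MP_fbca0c_an.NoQ1

open MeasureTheory Finset Filter Topology
open scoped ENNReal Classical

section defs

variable {Ω : Type} {m : MeasurableSpace Ω} (μ : Measure Ω) (S : Filtration ℕ m) (p q : ℝ)

/-- the series of the a j converges to b in L_p -/
def LpSum (a : ℕ → Ω → ℂ) (b : Ω → ℂ) : Prop :=
  Tendsto (fun n => eLpNorm (∑ j ∈ range n, a j - b) (ENNReal.ofReal p) μ) atTop (𝓝 0)

/-- b has vanishing conditional expectation at some level k and is a sum of subatoms with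
coefficients c -/
def Rep (b : Ω → ℂ) (c : ℕ → ℂ) : Prop :=
  ∃ k, μ[b|S k] =ᵐ[μ] 0 ∧ ∃ a : ℕ → Ω → ℂ, LpSum μ p (fun j => c j • a j) b ∧
    ∀ j, AEStronglyMeasurable (a j) μ ∧ ∃ l ≥ k, ∃ A, MeasurableSet[S l] A ∧
      Function.support (a j) ⊆ A ∧ eLpNorm (a j) (ENNReal.ofReal q) μ ≤
        μ A ^ (1 - 1 / p - 1 / (q / (q - 1))) / ((l - k + 1 : ℕ) : ℝ≥0∞)

/-- atomic blocks -/
def IsBlock (b : Ω → ℂ) : Prop :=
  Integrable b μ ∧ (AEStronglyMeasurable[S 0] b μ ∨ ∃ c, Rep μ S p q b c)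

/-- the size of a block -/
noncomputable def size (b : Ω → ℂ) : ℝ≥0∞ :=
  if AEStronglyMeasurable[S 0] b μ then eLpNorm b (ENNReal.ofReal p) μ
  else ⨅ (c : ℕ → ℂ) (_ : Rep μ S p q b c), ∑' j, ‖c j‖ₑ

/-- the atomic block quasi-norm -/
noncomputable def atb (f : Ω → ℂ) : ℝ≥0∞ :=
  ⨅ (b : ℕ → Ω → ℂ) (_ : (∀ i, IsBlock μ S p q (b i)) ∧ LpSum μ p b f),
    (∑' i, size μ S p q (b i) ^ p) ^ (1 / p)

/-- martingale differences -/
noncomputable def df (f : Ω → ℂ) : ℕ → Ω → ℂ
  | 0 => μ[f|S 0]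
  | k + 1 => μ[f|S (k + 1)] - μ[f|S k]

/-- the square function quasi-norm -/
noncomputable def Hp (f : Ω → ℂ) : ℝ≥0∞ :=
  (∫⁻ x, ((∑' k, ‖df μ S f k x‖ₑ ^ 2) ^ (1 / 2 : ℝ)) ^ p ∂μ) ^ (1 / p)

end defs

open Pool.Agent.Lib.helper10.Walsh

theorem lps {p : ℝ} {a : ℕ → G → ℂ} {b : G → ℂ} (N : ℕ) (h0 : ∀ j, N ≤ j → a j = 0)
    (h1 : ∑ j ∈ range N, a j = b) : LpSum mu p a b := by
  refine tendsto_const_nhds.congr' ?_
  filter_upwards [eventually_ge_atTop N] with n hn
  rw [← sum_subset (range_subset_range.2 hn) fun j _ hj => h0 j (by simpa using hj), h1, sub_self,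
    eLpNorm_zero]

theorem result : ∃ (Ω : Type) (m : MeasurableSpace Ω) (μ : Measure Ω) (S : Filtration ℕ m),
    IsProbabilityMeasure μ ∧ ⨆ k, S k = m ∧ ∀ p q : ℝ, 0 < p → p < 1 → 1 < q → ∀ C : NNReal,
      ∃ f : Ω → ℂ, MemLp f ⊤ μ ∧ C * atb μ S p q f < Hp μ S p f := by
  have m1 : ∀ k, StronglyMeasurable[F (k + 1)] (r k) := fun k =>
    meas fun x y h => by simp only [r, h k k.lt_succ_self]
  refine ⟨G, _, mu, F, inferInstance, le_antisymm (iSup_le F.le) (iSup_le fun k => ?_),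
    fun p q p0 p1 q1 C => ?_⟩
  · refine le_iSup_of_le (k + 1) (Measurable.comap_le ?_)
    have : (fun x : G => x k) = (fun t : ℝ => decide (t < 0)) ∘ r k := funext fun x => by
      cases h : x k <;> simp [r, h]
    rw [this]
    exact (measurable_to_bool (by
      convert measurableSet_Iio (a := (0 : ℝ))
      ext
      simp)).comp
      (m1 k).measurable
  have e0 : 0 < 1 / p - 1 := sub_pos.2 (one_lt_one_div p0 p1)
  obtain ⟨k, hk⟩ : ∃ k : ℕ, C * ((2⁻¹ : ℝ≥0∞) ^ (1 / p - 1)) ^ k < 1 := by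
    have := ENNReal.Tendsto.const_mul (a := C) (ENNReal.tendsto_pow_atTop_nhds_zero_of_lt_one
      (ENNReal.rpow_lt_one ENNReal.one_half_lt_one e0)) (.inr ENNReal.coe_ne_top)
    exact (this.eventually_lt_const (by simp)).exists
  set f : G → ℂ := fun x => r k x with hf
  have f1 : ∀ x, ‖f x‖ = 1 := fun x => by simpa [hf, w_pow] using w_abs (2 ^ k) x
  have f2 : StronglyMeasurable[F (k + 1)] f := Complex.continuous_ofReal.comp_stronglyMeasurable (m1 k)
  have f3 : MemLp f ⊤ mu := .of_bound (f2.mono (F.le _)).aestronglyMeasurable 1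
    (.of_forall fun x => (f1 x).le)
  have f4 := f3.integrable le_top
  have f5 : ∀ j ≤ k, mu[f|F j] =ᵐ[mu] 0 := fun j hj => by
    have := Complex.ofRealCLM.comp_condExp_comm (m := F j) (w_int1 (2 ^ k))
    have h2 := cond_zero (w_int1 (2 ^ k)) hj fun x => by simpa using w_flip (2 ^ k) k x
    rw [funext (w_pow k)] at this h2
    filter_upwards [this, h2] with x h1 h2
    exact h1.symm.trans (by simp [h2])
  have f6 : ¬AEStronglyMeasurable[F 0] f mu := fun h => by
    obtain ⟨x, hx⟩ := ((condExp_of_aestronglyMeasurable' (F.le 0) h f4).symm.trans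
      (f5 0 k.zero_le)).exists
    simpa [hx] using f1 x
  set T : ℝ≥0∞ := 2⁻¹ ^ k with hT
  have T0 : T ≠ 0 := by simp [hT]
  have T1 : T ≠ ⊤ := by simp [hT]
  have h1 : Rep mu F p q f fun j => if j < 2 ^ k then ((T ^ (1 / p)).toReal : ℂ) else 0 := by
    refine ⟨k, f5 k le_rfl, fun j => (I k j.testBit).indicator
      fun x => ((T ^ (-(1 / p))).toReal : ℂ) * f x, lps (2 ^ k)
      (fun j hj => by simp [hj.not_gt]) (funext fun x => ?_), fun j => ⟨(f4.const_mul _).1.indicator
      (I_meas _ _), k, le_rfl, _, MeasurableSpace.measurableSet_generateFrom ⟨j.testBit, rfl⟩,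
      Set.support_indicator_subset, ?_⟩⟩
    · have h1 := Nat.ofBits_lt_two_pow fun i : Fin k => x i
      beta_reduce
      rw [Finset.sum_apply, sum_eq_single (Nat.ofBits fun i : Fin k => x i) (fun j hj h => ?_)
        (fun h => absurd (mem_range.2 h1) h), if_pos h1, Pi.smul_apply, Set.indicator_of_mem
        (fun i hi => by rw [Nat.testBit_ofBits_lt _ _ hi]), smul_eq_mul, ← mul_assoc,
        ← Complex.ofReal_mul, ← ENNReal.toReal_mul, ← ENNReal.rpow_add _ _ T0 T1]
      · simp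
      · rw [Pi.smul_apply, Set.indicator_of_notMem (fun h2 => h (Nat.eq_of_testBit_eq fun i => ?_)),
          smul_zero]
        rcases lt_or_ge i k with hi | hi
        · rw [Nat.testBit_ofBits_lt _ _ hi, h2 i hi]
        · rw [Nat.testBit_ofBits_ge _ _ hi, Nat.testBit_lt_two_pow
            ((mem_range.1 hj).trans_le (Nat.pow_le_pow_right two_pos hi))]
    · refine (eLpNorm_mono (g := (I k j.testBit).indicator fun _ => (T ^ (-(1 / p))).toReal)
        fun x => ?_).trans ?_
      · by_cases hx : x ∈ I k j.testBit <;> simp [hx, f1]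
      · rw [eLpNorm_indicator_const (I_meas _ _) (by simpa using one_pos.trans q1)
          ENNReal.ofReal_ne_top, mu_I, ← hT, Real.enorm_of_nonneg ENNReal.toReal_nonneg,
          ENNReal.ofReal_toReal (by simp [T0, T1]), ← ENNReal.rpow_add _ _ T0 T1,
          ENNReal.toReal_ofReal (by linarith)]
        simp only [Nat.sub_self, zero_add, Nat.cast_one, div_one]
        refine le_of_eq (congrArg _ ?_)
        field_simp [(one_pos.trans q1).ne']
        ring
  refine ⟨f, f3, lt_of_le_of_lt ?_ (hk.trans_le ?_)⟩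
  · refine mul_le_mul_right (iInf₂_le_of_le (fun i => if i = 0 then f else 0) ⟨fun i => ?_,
      lps 1 (fun j hj => if_neg (by omega)) (by simp)⟩ ?_) _
    swap
    · beta_reduce
      split_ifs
      · exact ⟨f4, .inr ⟨_, h1⟩⟩
      · exact ⟨integrable_zero _ _ _, .inl aestronglyMeasurable_zero⟩
    · beta_reduce
      rw [tsum_eq_single 0 fun i hi => by
        rw [if_neg hi, size, if_pos aestronglyMeasurable_zero, eLpNorm_zero,
          ENNReal.zero_rpow_of_pos p0], one_div p, ENNReal.rpow_rpow_inv p0.ne', if_pos rfl, size,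
        if_neg f6]
      refine iInf₂_le_of_le _ h1 (le_of_eq ?_)
      rw [tsum_eq_sum (s := range (2 ^ k)) fun j hj => by simp [mt mem_range.2 hj],
        sum_congr rfl (g := fun _ => T ^ (1 / p)) fun j hj => by
          beta_reduce
          rw [if_pos (mem_range.1 hj), ← ofReal_norm_eq_enorm, Complex.norm_of_nonneg
            ENNReal.toReal_nonneg, ENNReal.ofReal_toReal (by simp [T0, T1])], ← ENNReal.rpow_natCast,
        ← ENNReal.rpow_mul, mul_comm, ENNReal.rpow_mul, ENNReal.rpow_natCast, ← hT,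
        ENNReal.rpow_sub _ _ T0 T1, ENNReal.rpow_one, one_div p, div_eq_mul_inv, hT,
        ← ENNReal.inv_pow, inv_inv]
      simp [mul_comm]
  · refine ENNReal.one_le_rpow ?_ (by positivity)
    rw [← (lintegral_one (μ := mu)).trans measure_univ]
    refine lintegral_mono_ae ?_
    filter_upwards [f5 k le_rfl] with x hx
    refine ENNReal.one_le_rpow (ENNReal.one_le_rpow (le_trans ?_ (ENNReal.le_tsum (k + 1)))
      (by norm_num)) p0
    rw [df, condExp_of_stronglyMeasurable (F.le _) f2 f4, Pi.sub_apply, hx, Pi.zero_apply, sub_zero,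
      ← ofReal_norm_eq_enorm, f1]
    simp

end Pool.Agent.Results.MP_fbca0c_an.NoQ1
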